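import Pool.Agent.X319.UB.Dig

set_option autoImplicit false

namespace Pool.Agent.X319.UB

open Finset Filter
open scoped Pointwise

theorem not_P {q : ℕ} {A : Finset ℕ} (hq : 2 ≤ q) (hA : ∀ x ∈ A, x < q)
    (hcov : ∀ r : ℤ, ∃ x ∈ A, ∃ y ∈ A, (q : ℤ) ∣ (x : ℤ) - y - r) {s : ℕ} (hs : (A + A).card = s)
    (hs0 : 0 < s) (hsq : s < q) {c : ℝ} (hc0 : 0 < c) (hc1 : c ≤ 1)
    (hc : 1 / c < 2 - Real.log s / Real.log q) : ¬ P c := by
  rintro ⟨δ, hδ, n₀, hP⟩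
  have hqR : (1 : ℝ) < q := by exact_mod_cast hq
  have hqpos : (0 : ℝ) < q := by linarith
  have hsR : (0 : ℝ) < s := by exact_mod_cast hs0
  have hlogq : 0 < Real.log q := Real.log_pos hqR
  set e : ℝ := 1 / c with he
  have he1 : 1 ≤ e := by rw [he, le_div_iff₀ hc0]; linarith
  -- the two ratios
  set ρ : ℝ := (q : ℝ) ^ (e - 2) * s with hρ
  have hρ0 : 0 ≤ ρ := by positivity
  have hρ1 : ρ < 1 := by
    have h1 : Real.log ρ < 0 := by
      rw [hρ, Real.log_mul (Real.rpow_pos_of_pos hqpos _).ne' hsR.ne', Real.log_rpow hqpos]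
      have h2 : e - 2 < - (Real.log s / Real.log q) := by linarith
      have h3 : (e - 2) * Real.log q < - (Real.log s / Real.log q) * Real.log q :=
        mul_lt_mul_of_pos_right h2 hlogq
      have h4 : - (Real.log s / Real.log q) * Real.log q = - Real.log s := by
        field_simp
      linarith
    have hρpos : 0 < ρ := by positivity
    exact (Real.log_neg_iff hρpos).1 h1
  set σ : ℝ := (s : ℝ) / q with hσ
  have hσ0 : 0 ≤ σ := by positivity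
  have hσ1 : σ < 1 := by
    rw [hσ, div_lt_one hqpos]; exact_mod_cast hsq
  have ht : Tendsto (fun d : ℕ => (2 : ℝ) ^ (e - 1) * ρ ^ d + 2 * σ ^ d) atTop (nhds 0) := by
    have h1 := (tendsto_pow_atTop_nhds_zero_of_lt_one hρ0 hρ1).const_mul ((2 : ℝ) ^ (e - 1))
    have h2 := (tendsto_pow_atTop_nhds_zero_of_lt_one hσ0 hσ1).const_mul (2 : ℝ)
    simpa using h1.add h2
  have hev1 : ∀ᶠ d : ℕ in atTop, (2 : ℝ) ^ (e - 1) * ρ ^ d + 2 * σ ^ d < δ :=
    (ht.eventually (gt_mem_nhds hδ))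
  have hev2 : ∀ᶠ d : ℕ in atTop, (n₀ : ℝ) ≤ (q : ℝ) ^ d :=
    (tendsto_pow_atTop_atTop_of_one_lt hqR).eventually_ge_atTop _
  obtain ⟨d, hd1, hd2⟩ := (hev1.and hev2).exists
  -- the parameters
  set M : ℕ := q ^ d with hM
  have hMR : (M : ℝ) = (q : ℝ) ^ d := by rw [hM]; push_cast; rfl
  have hMpos : (0 : ℝ) < M := by rw [hMR]; positivity
  have hM1 : (1 : ℝ) ≤ M := by rw [hMR]; exact one_le_pow₀ hqR.le
  set K : ℕ := ⌈(2 * (M : ℝ)) ^ e / M⌉₊ with hK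
  have hKge : (2 * (M : ℝ)) ^ e ≤ (K * M : ℕ) := by
    have := Nat.le_ceil ((2 * (M : ℝ)) ^ e / M)
    rw [← hK, div_le_iff₀ hMpos] at this
    push_cast
    exact this
  have hKle : (K : ℝ) ≤ (2 * (M : ℝ)) ^ e / M + 1 := (Nat.ceil_lt_add_one (by positivity)).le
  obtain ⟨a, ha1, ha2⟩ := construct (by omega) hA hcov d K
  rw [← hM, hs] at ha2
  have h2M : (1 : ℝ) ≤ 2 * M := by linarith
  have hn₀ : n₀ ≤ K * M := by
    have h1 : (2 * (M : ℝ)) ≤ (2 * (M : ℝ)) ^ e := by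
      calc (2 * (M : ℝ)) = (2 * (M : ℝ)) ^ (1 : ℝ) := (Real.rpow_one _).symm
        _ ≤ _ := Real.rpow_le_rpow_of_exponent_le h2M he1
    have h2 : (n₀ : ℝ) ≤ (K * M : ℕ) := by linarith [hMR]
    exact_mod_cast h2
  have hnc : 2 * (M : ℝ) ≤ ((K * M : ℕ) : ℝ) ^ c := by
    calc 2 * (M : ℝ) = ((2 * (M : ℝ)) ^ e) ^ c := by
          rw [← Real.rpow_mul (by positivity), he, one_div, inv_mul_cancel₀ hc0.ne', Real.rpow_one]
      _ ≤ _ := Real.rpow_le_rpow (by positivity) hKge hc0.le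
  have hfin := hP (K * M) hn₀ a (by
    intro i _ _
    refine le_trans ?_ hnc
    have := ha1 i
    rw [← hM] at this
    exact_mod_cast this)
  have hcard : ((S (K * M) a).ncard : ℝ) ≤ (K + 3) * (s : ℝ) ^ d := by exact_mod_cast ha2
  have h5 : δ * (2 * M) ≤ ((2 * (M : ℝ)) ^ e / M + 4) * (s : ℝ) ^ d := by
    calc δ * (2 * M) ≤ δ * ((K * M : ℕ) : ℝ) ^ c := mul_le_mul_of_nonneg_left hnc hδ.le
      _ ≤ _ := hfin
      _ ≤ (K + 3) * (s : ℝ) ^ d := hcard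
      _ ≤ _ := mul_le_mul_of_nonneg_right (by linarith) (by positivity)
  have h6 : ((2 * (M : ℝ)) ^ e / M + 4) * (s : ℝ) ^ d / (2 * M) =
      (2 : ℝ) ^ (e - 1) * ρ ^ d + 2 * σ ^ d := by
    have e1 : (2 * (M : ℝ)) ^ e = 2 * (2 : ℝ) ^ (e - 1) * ((M : ℝ) * M * ((q : ℝ) ^ (e - 2)) ^ d) := by
      rw [Real.mul_rpow (by norm_num) hMpos.le]
      have a1 : (2 : ℝ) ^ e = 2 * (2 : ℝ) ^ (e - 1) := by
        rw [Real.rpow_sub (by norm_num), Real.rpow_one]; ring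
      have a2 : (M : ℝ) ^ e = (M : ℝ) * M * ((q : ℝ) ^ (e - 2)) ^ d := by
        have b1 : ((q : ℝ) ^ (e - 2)) ^ d = (M : ℝ) ^ (e - 2) := by
          rw [hMR, ← Real.rpow_natCast, ← Real.rpow_mul hqpos.le, mul_comm,
            Real.rpow_mul hqpos.le, Real.rpow_natCast]
        rw [b1, Real.rpow_sub hMpos]
        have : (M : ℝ) ^ (2 : ℝ) = M * M := by
          rw [show (2 : ℝ) = ((2 : ℕ) : ℝ) by norm_num, Real.rpow_natCast]; ring
        rw [this]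
        field_simp
      rw [a1, a2]
    have e2 : ρ ^ d = ((q : ℝ) ^ (e - 2)) ^ d * (s : ℝ) ^ d := by rw [hρ, mul_pow]
    have e3 : σ ^ d = (s : ℝ) ^ d / M := by rw [hσ, div_pow, hMR]
    rw [e1, e2, e3]
    field_simp
    ring
  have h7 : δ ≤ ((2 * (M : ℝ)) ^ e / M + 4) * (s : ℝ) ^ d / (2 * M) := by
    rw [le_div_iff₀ (by positivity)]; exact h5
  rw [h6] at h7
  linarith

end Pool.Agent.X319.UB
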