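import Mathlib

/-!
# MP_15e61c_co: definitions of the problem
-/

set_option autoImplicit false

namespace Pool.Agent.X319.UB

/-- the set `S(a) = {a_i + a_j + (j - i) : 1 ≤ i < j ≤ n}` of a sequence `a_1, ..., a_n` of
non-negative integers -/
def S (n : ℕ) (a : ℕ → ℕ) : Set ℤ :=
  {s | ∃ i j : ℕ, 1 ≤ i ∧ i < j ∧ j ≤ n ∧ s = (a i : ℤ) + a j + ((j : ℤ) - i)}

/-- the property `P(c)`: there are `δ > 0` and `n₀` with `|S(a)| ≥ δ n ^ c` for all `n ≥ n₀` and all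
sequences with `a_i ≤ n ^ c` for `1 ≤ i ≤ n` -/
def P (c : ℝ) : Prop := ∃ δ : ℝ, 0 < δ ∧ ∃ n₀ : ℕ, ∀ n : ℕ, n₀ ≤ n → ∀ a : ℕ → ℕ,
  (∀ i, 1 ≤ i → i ≤ n → (a i : ℝ) ≤ (n : ℝ) ^ c) → δ * (n : ℝ) ^ c ≤ ((S n a).ncard : ℝ)

/-- `c' = sup {c ∈ [0, 1] : P(c) holds}` -/
noncomputable def cPrime : ℝ := sSup {c : ℝ | 0 ≤ c ∧ c ≤ 1 ∧ P c}

end Pool.Agent.X319.UB
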