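import Pool.Agent.X319.UB.Def

/-!
# Numbers with digits in a perfect difference set
-/

set_option autoImplicit false

namespace Pool.Agent.X319.UB

open Finset
open scoped Pointwise

/-- numbers with `d` digits in `A` (basis `q`) -/
def dig (q : ℕ) (A : Finset ℕ) : ℕ → Finset ℕ
  | 0 => {0}
  | d + 1 => (A ×ˢ dig q A d).image (fun x => x.1 + q * x.2)

variable {q : ℕ} {A : Finset ℕ}

lemma dig_lt (hA : ∀ x ∈ A, x < q) : ∀ d, ∀ x ∈ dig q A d, x < q ^ d
  | 0, x, hx => by
    simp only [dig, Finset.mem_singleton] at hx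
    simp [hx]
  | d + 1, x, hx => by
    simp only [dig, Finset.mem_image, Finset.mem_product, Prod.exists] at hx
    obtain ⟨a, y, ⟨ha, hy⟩, rfl⟩ := hx
    have h1 := hA a ha
    have h2 := dig_lt hA d y hy
    have h3 : q * (y + 1) ≤ q * q ^ d := Nat.mul_le_mul_left _ h2
    rw [pow_succ]
    nlinarith

lemma dig_add (d : ℕ) : (dig q A d + dig q A d).card ≤ (A + A).card ^ d := by
  induction d with
  | zero => simp [dig]
  | succ d ih =>
    have hsub : dig q A (d + 1) + dig q A (d + 1) ⊆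
        ((A + A) ×ˢ (dig q A d + dig q A d)).image (fun x => x.1 + q * x.2) := by
      intro z hz
      rw [Finset.mem_add] at hz
      obtain ⟨u, hu, v, hv, rfl⟩ := hz
      simp only [dig, Finset.mem_image, Finset.mem_product, Prod.exists] at hu hv ⊢
      obtain ⟨a, x, ⟨ha, hx⟩, rfl⟩ := hu
      obtain ⟨b, y, ⟨hb, hy⟩, rfl⟩ := hv
      exact ⟨a + b, x + y, ⟨Finset.add_mem_add ha hb, Finset.add_mem_add hx hy⟩, by ring⟩
    calc _ ≤ _ := Finset.card_le_card hsub
      _ ≤ _ := Finset.card_image_le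
      _ = (A + A).card * (dig q A d + dig q A d).card := Finset.card_product _ _
      _ ≤ (A + A).card * (A + A).card ^ d := Nat.mul_le_mul_left _ ih
      _ = _ := by rw [pow_succ, mul_comm]

lemma dig_cov (hcov : ∀ r : ℤ, ∃ x ∈ A, ∃ y ∈ A, (q : ℤ) ∣ (x : ℤ) - y - r) (d : ℕ) :
    ∀ r : ℤ, ∃ x ∈ dig q A d, ∃ y ∈ dig q A d, ((q ^ d : ℕ) : ℤ) ∣ (x : ℤ) - y - r := by
  induction d with
  | zero => intro r; exact ⟨0, by simp [dig], 0, by simp [dig], by simp⟩
  | succ d ih =>
    intro r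
    obtain ⟨a, ha, b, hb, t, ht⟩ := hcov r
    obtain ⟨x, hx, y, hy, s, hs⟩ := ih (-t)
    refine ⟨a + q * x, ?_, b + q * y, ?_, s, ?_⟩
    · simp only [dig, Finset.mem_image, Finset.mem_product, Prod.exists]
      exact ⟨a, x, ⟨ha, hx⟩, rfl⟩
    · simp only [dig, Finset.mem_image, Finset.mem_product, Prod.exists]
      exact ⟨b, y, ⟨hb, hy⟩, rfl⟩
    · push_cast at hs ⊢
      have h1 : (x : ℤ) - y = q ^ d * s - t := by linarith
      calc (a : ℤ) + q * x - (b + q * y) - r = ((a : ℤ) - b - r) + q * (x - y) := by ring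
        _ = q * t + q * (q ^ d * s - t) := by rw [ht, h1]
        _ = _ := by ring

/-- the construction -/
theorem construct (hq : 1 ≤ q) (hA : ∀ x ∈ A, x < q)
    (hcov : ∀ r : ℤ, ∃ x ∈ A, ∃ y ∈ A, (q : ℤ) ∣ (x : ℤ) - y - r) (d K : ℕ) :
    ∃ a : ℕ → ℕ, (∀ i, a i ≤ 2 * q ^ d) ∧
      (S (K * q ^ d) a).ncard ≤ (K + 3) * (A + A).card ^ d := by
  classical
  set M := q ^ d with hM
  have hMpos : 0 < M := pow_pos hq d
  have h := fun i : ℕ => dig_cov hcov d (2 * (i : ℤ))
  choose x hx y hy hxy using h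
  refine ⟨fun i => y (i % M) + i % M, ?_, ?_⟩
  · intro i
    have h1 := dig_lt hA d _ (hy (i % M))
    have h2 := Nat.mod_lt i hMpos
    rw [← hM] at h1
    show y (i % M) + i % M ≤ 2 * M
    omega
  · set B : Finset ℤ := ((dig q A d + dig q A d) ×ˢ Finset.range (K + 3)).image
      (fun z : ℕ × ℕ => (z.1 : ℤ) + M * z.2) with hB
    have hsub : S (K * M) (fun i => y (i % M) + i % M) ⊆ (B : Set ℤ) := by
      rintro s ⟨i, j, hi, hij, hj, rfl⟩
      obtain ⟨t, ht⟩ := hxy (j % M)
      have hyi := hy (i % M)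
      have hxj := hx (j % M)
      have l1 := dig_lt hA d _ hxj
      have l2 := dig_lt hA d _ (hy (j % M))
      rw [← hM] at l1 l2 ht
      have m2 := Nat.mod_lt j hMpos
      have e1 := Nat.div_add_mod i M
      have e2 := Nat.div_add_mod j M
      have hdiv : i / M ≤ j / M := Nat.div_le_div_right hij.le
      have hdK : j / M ≤ K := by
        calc j / M ≤ K * M / M := Nat.div_le_div_right hj
          _ = K := Nat.mul_div_cancel _ hMpos
      have ht0 : t ≤ 0 := by
        by_contra hcon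
        have : 1 ≤ t := by omega
        have h3 : (M : ℤ) * 1 ≤ M * t := mul_le_mul_of_nonneg_left this (by positivity)
        omega
      have ht2 : -2 ≤ t := by
        by_contra hcon
        have : t ≤ -3 := by omega
        have h3 : (M : ℤ) * t ≤ M * (-3) := mul_le_mul_of_nonneg_left this (by positivity)
        omega
      obtain ⟨u, hu⟩ : ∃ u : ℕ, (u : ℤ) = ((j / M : ℕ) : ℤ) - ((i / M : ℕ) : ℤ) - t :=
        ⟨(((j / M : ℕ) : ℤ) - ((i / M : ℕ) : ℤ) - t).toNat, Int.toNat_of_nonneg (by omega)⟩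
      rw [Finset.mem_coe, hB, Finset.mem_image]
      refine ⟨(y (i % M) + x (j % M), u), ?_, ?_⟩
      · rw [Finset.mem_product]
        refine ⟨Finset.add_mem_add hyi hxj, ?_⟩
        rw [Finset.mem_range]
        have hdK' : ((j / M : ℕ) : ℤ) ≤ K := by exact_mod_cast hdK
        have hi0 : (0 : ℤ) ≤ ((i / M : ℕ) : ℤ) := Int.natCast_nonneg _
        have hlt : (u : ℤ) < K + 3 := by rw [hu]; linarith
        exact_mod_cast hlt
      · show ((y (i % M) + x (j % M) : ℕ) : ℤ) + (M : ℤ) * (u : ℤ) = _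
        rw [hu]
        have e1' : (M : ℤ) * ((i / M : ℕ) : ℤ) + ((i % M : ℕ) : ℤ) = i := by exact_mod_cast e1
        have e2' : (M : ℤ) * ((j / M : ℕ) : ℤ) + ((j % M : ℕ) : ℤ) = j := by exact_mod_cast e2
        simp only [Nat.cast_add]
        linear_combination (-1 : ℤ) * e1' + e2' + ht
    calc _ ≤ (B : Set ℤ).ncard := Set.ncard_le_ncard hsub (Finset.finite_toSet B)
      _ = B.card := Set.ncard_coe_finset B
      _ ≤ _ := Finset.card_image_le
      _ = (dig q A d + dig q A d).card * (K + 3) := by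
        rw [Finset.card_product, Finset.card_range]
      _ ≤ (A + A).card ^ d * (K + 3) := Nat.mul_le_mul_right _ (dig_add d)
      _ = _ := mul_comm _ _

end Pool.Agent.X319.UB
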