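import Pool.Agent.X319.UB.Def

/-!
# The lower bound
-/

set_option autoImplicit false

namespace Pool.Agent.X319.UB

open Finset
open scoped Pointwise

variable (a : ℕ → ℕ) (M : ℕ)

/-- block -/
def I (k : ℕ) : Finset ℕ := Finset.Ioc (4 * M * k) (4 * M * k + M)

/-- `a_i - i` -/
def B (k : ℕ) : Finset ℤ := (I M k).image (fun i => (a i : ℤ) - i)

/-- `a_i + i` -/
def D (k : ℕ) : Finset ℤ := (I M k).image (fun i => (a i : ℤ) + i)

lemma card_I (k : ℕ) : (I M k).card = M := by simp [I]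

lemma M_le (k : ℕ) : M ≤ (D a M k - B a M k).card := by
  have hsub : (I M k).image (fun i : ℕ => (2 * i : ℤ)) ⊆ D a M k - B a M k := by
    intro z hz
    obtain ⟨i, hi, rfl⟩ := Finset.mem_image.1 hz
    rw [Finset.mem_sub]
    exact ⟨_, Finset.mem_image_of_mem _ hi, _, Finset.mem_image_of_mem _ hi, by ring⟩
  calc M = (I M k).card := (card_I M k).symm
    _ = _ := (Finset.card_image_of_injective _ (by intro x y h; simpa using h)).symm
    _ ≤ _ := Finset.card_le_card hsub

lemma card_B_le (k : ℕ) : (B a M k).card ≤ M :=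
  Finset.card_image_le.trans (card_I M k).le

lemma one_le_B (hM : 1 ≤ M) (k : ℕ) : 1 ≤ (B a M k).card := by
  rw [Nat.one_le_iff_ne_zero, Finset.card_ne_zero, B, Finset.image_nonempty, ← Finset.card_pos,
    card_I]
  exact hM

lemma triple (j k l : ℕ) : M * ((B a M j).card * (D a M l).card) ≤
    (B a M j + D a M k).card * (B a M j + D a M l).card * (B a M k + D a M l).card := by
  have h1 := Finset.ruzsa_triangle_inequality_sub_add_add (D a M k) (B a M j) (B a M k)
  have h2 := Finset.ruzsa_triangle_inequality_add_add_add (B a M k) (D a M l) (B a M j)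
  rw [add_comm (D a M k) (B a M j)] at h1
  rw [add_comm (D a M l) (B a M j)] at h2
  have h3 := M_le a M k
  calc M * ((B a M j).card * (D a M l).card)
      ≤ (D a M k - B a M k).card * ((B a M j).card * (D a M l).card) := Nat.mul_le_mul_right _ h3
    _ = ((D a M k - B a M k).card * (B a M j).card) * (D a M l).card := by ring
    _ ≤ ((B a M j + D a M k).card * (B a M k + B a M j).card) * (D a M l).card :=
        Nat.mul_le_mul_right _ h1
    _ = (B a M j + D a M k).card * ((B a M k + B a M j).card * (D a M l).card) := by ring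
    _ ≤ (B a M j + D a M k).card * ((B a M k + D a M l).card * (B a M j + D a M l).card) :=
        Nat.mul_le_mul_left _ h2
    _ = _ := by ring

/-- a good pair of blocks -/
lemma good_pair (hM : 1 ≤ M) {L : ℕ} (hL : M < 2 ^ L) (t : ℕ) :
    ∃ m < L, M ≤ 2 * ((B a M (m * t)).card * (D a M ((m + 1) * t)).card) := by
  by_contra hcon
  push Not at hcon
  have key : ∀ m ≤ L, 2 ^ m ≤ (B a M (m * t)).card := by
    intro m
    induction m with
    | zero => intro _; simpa using one_le_B a M hM _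
    | succ m ih =>
      intro hm
      have h1 := ih (by omega)
      have h2 := hcon m (by omega)
      have h3 := M_le a M ((m + 1) * t)
      have h4 : (D a M ((m + 1) * t) - B a M ((m + 1) * t)).card ≤
          (D a M ((m + 1) * t)).card * (B a M ((m + 1) * t)).card := Finset.card_sub_le
      have h5 : 2 * (B a M (m * t)).card * (D a M ((m + 1) * t)).card <
          (B a M ((m + 1) * t)).card * (D a M ((m + 1) * t)).card := by
        calc _ = 2 * ((B a M (m * t)).card * (D a M ((m + 1) * t)).card) := by ring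
          _ < M := h2
          _ ≤ _ := h3.trans h4
          _ = _ := mul_comm _ _
      have h6 := Nat.lt_of_mul_lt_mul_right h5
      rw [pow_succ]
      omega
  have h := key L le_rfl
  have := card_B_le a M (L * t)
  omega

/-- large sets of sums -/
lemma large (hM : 1 ≤ M) {L : ℕ} (hL : M < 2 ^ L) {t K : ℕ} (ht : 0 < t) (htK : 2 * t * L < K) :
    ∃ u k : ℕ, (u = t ∨ u = 2 * t) ∧ k + u < K ∧
      M ^ 2 ≤ 2 * (B a M k + D a M (k + u)).card ^ 3 := by
  obtain ⟨m, hm, h⟩ := good_pair a M hM hL (2 * t)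
  have hlt : (m + 1) * (2 * t) < K := by
    calc (m + 1) * (2 * t) ≤ L * (2 * t) := Nat.mul_le_mul_right _ hm
      _ = 2 * t * L := by ring
      _ < K := htK
  set j := m * (2 * t) with hj
  have hl : (m + 1) * (2 * t) = j + 2 * t := by rw [hj]; ring
  rw [hl] at h hlt
  have h3 := triple a M j (j + t) (j + 2 * t)
  set x := (B a M j + D a M (j + t)).card with hx
  set y := (B a M j + D a M (j + 2 * t)).card with hy
  set z := (B a M (j + t) + D a M (j + 2 * t)).card with hz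
  have h4 : M ^ 2 ≤ 2 * (x * y * z) := by
    calc M ^ 2 = M * M := by ring
      _ ≤ M * (2 * ((B a M j).card * (D a M (j + 2 * t)).card)) := Nat.mul_le_mul_left _ h
      _ = 2 * (M * ((B a M j).card * (D a M (j + 2 * t)).card)) := by ring
      _ ≤ 2 * (x * y * z) := Nat.mul_le_mul_left _ h3
  have hmax : ∃ w, (w = x ∨ w = y ∨ w = z) ∧ x ≤ w ∧ y ≤ w ∧ z ≤ w := by
    rcases le_total x y with h1 | h1 <;> rcases le_total y z with h2 | h2 <;>
      rcases le_total x z with h3 | h3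
    · exact ⟨z, by simp, h3, h2, le_rfl⟩
    · exact ⟨z, by simp, h1.trans h2, h2, le_rfl⟩
    · exact ⟨y, by simp, h1, le_rfl, h2⟩
    · exact ⟨y, by simp, h1, le_rfl, h2⟩
    · exact ⟨z, by simp, h3, h2, le_rfl⟩
    · exact ⟨x, by simp, le_rfl, h1, h3⟩
    · exact ⟨x, by simp, le_rfl, h1, h2.trans h1⟩
    · exact ⟨x, by simp, le_rfl, h1, h3⟩
  obtain ⟨w, hw, hxw, hyw, hzw⟩ := hmax
  have h5 : M ^ 2 ≤ 2 * w ^ 3 := by
    calc M ^ 2 ≤ 2 * (x * y * z) := h4
      _ ≤ 2 * (w * w * w) := by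
        refine Nat.mul_le_mul_left _ (Nat.mul_le_mul (Nat.mul_le_mul hxw hyw) hzw)
      _ = _ := by ring
  rcases hw with rfl | rfl | rfl
  · exact ⟨t, j, Or.inl rfl, by omega, h5⟩
  · exact ⟨2 * t, j, Or.inr rfl, by omega, h5⟩
  · refine ⟨t, j + t, Or.inl rfl, by omega, ?_⟩
    have e : j + t + t = j + 2 * t := by ring
    rw [e]; exact h5

lemma S_finite (n : ℕ) (a : ℕ → ℕ) : (S n a).Finite := by
  refine Set.Finite.subset (Finset.finite_toSet (((Finset.range (n + 1)) ×ˢ
    (Finset.range (n + 1))).image (fun x : ℕ × ℕ => (a x.1 : ℤ) + a x.2 + ((x.2 : ℤ) - x.1)))) ?_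
  rintro s ⟨i, j, h1, h2, h3, rfl⟩
  rw [Finset.mem_coe, Finset.mem_image]
  refine ⟨(i, j), ?_, rfl⟩
  simp only [Finset.mem_product, Finset.mem_range]
  omega

/-- the counting -/
theorem count {n K L R : ℕ} (hM : 1 ≤ M) (ha : ∀ i, 1 ≤ i → i ≤ n → a i ≤ M) (hL : M < 2 ^ L)
    (hK : 4 * M * K ≤ n) (hR : 2 * R * L < K) {σ : ℝ} (hσ : 2 * σ ^ 3 ≤ (M : ℝ) ^ 2) :
    ((R - R / 2 : ℕ) : ℝ) * σ ≤ ((S n a).ncard : ℝ) := by
  classical
  have hch : ∀ t : ℕ, ∃ uk : ℕ × ℕ, t ∈ Finset.Ioc (R / 2) R → ((uk.1 = t ∨ uk.1 = 2 * t) ∧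
      uk.2 + uk.1 < K ∧ M ^ 2 ≤ 2 * (B a M uk.2 + D a M (uk.2 + uk.1)).card ^ 3) := by
    intro t
    by_cases ht : t ∈ Finset.Ioc (R / 2) R
    · rw [Finset.mem_Ioc] at ht
      have hlt : 2 * t * L < K := by
        calc 2 * t * L ≤ 2 * R * L := Nat.mul_le_mul_right _ (by omega)
          _ < K := hR
      obtain ⟨u, k, h⟩ := large a M hM hL (by omega) hlt
      exact ⟨(u, k), fun _ => h⟩
    · exact ⟨(0, 0), fun h => absurd h ht⟩
  choose uk huk using hch
  set F : ℕ → Finset ℤ := fun t => B a M (uk t).2 + D a M ((uk t).2 + (uk t).1) with hF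
  have hloc : ∀ t ∈ Finset.Ioc (R / 2) R, ∀ s ∈ F t, s ∈ S n a ∧
      4 * (M : ℤ) * (uk t).1 - M < s ∧ s < 4 * (M : ℤ) * (uk t).1 + 3 * M := by
    intro t ht s hs
    obtain ⟨hu, hk, _⟩ := huk t ht
    rw [Finset.mem_Ioc] at ht
    obtain ⟨b, hb, d, hd, rfl⟩ := Finset.mem_add.1 hs
    obtain ⟨i, hi, rfl⟩ := Finset.mem_image.1 hb
    obtain ⟨j, hj, rfl⟩ := Finset.mem_image.1 hd
    simp only [I, Finset.mem_Ioc] at hi hj
    generalize hu' : (uk t).1 = u at *
    generalize hk' : (uk t).2 = k at *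
    have hupos : 1 ≤ u := by omega
    have e1 : 4 * M * (k + u) = 4 * M * k + 4 * M * u := by ring
    have e2 : 4 * M * 1 ≤ 4 * M * u := Nat.mul_le_mul_left _ hupos
    have e3 : 4 * M * (k + u + 1) ≤ 4 * M * K := Nat.mul_le_mul_left _ hk
    have e4 : 4 * M * (k + u + 1) = 4 * M * (k + u) + 4 * M := by ring
    have hi1 : 1 ≤ i := by omega
    have hij : i < j := by omega
    have hjn : j ≤ n := by omega
    have hai := ha i hi1 (by omega)
    have haj := ha j (by omega) hjn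
    have e5 : (4 * (M : ℤ) * u) = ((4 * M * u : ℕ) : ℤ) := by push_cast; ring
    refine ⟨⟨i, j, hi1, hij, hjn, by ring⟩, ?_, ?_⟩
    · rw [e5]; omega
    · rw [e5]; omega
  have hdisj : ∀ t ∈ Finset.Ioc (R / 2) R, ∀ t' ∈ Finset.Ioc (R / 2) R, t ≠ t' →
      Disjoint (F t) (F t') := by
    intro t ht t' ht' hne
    rw [Finset.disjoint_left]
    intro s hs hs'
    obtain ⟨_, h1, h2⟩ := hloc t ht s hs
    obtain ⟨_, h3, h4⟩ := hloc t' ht' s hs'
    obtain ⟨hu, _, _⟩ := huk t ht
    obtain ⟨hu', _, _⟩ := huk t' ht'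
    rw [Finset.mem_Ioc] at ht ht'
    generalize (uk t).1 = u at *
    generalize (uk t').1 = v at *
    have huv : u ≠ v := by omega
    rcases Nat.lt_or_gt_of_ne huv with h | h
    · have e : 4 * (M : ℤ) * (u + 1) ≤ 4 * M * v := by
        have : ((u : ℤ) + 1) ≤ v := by exact_mod_cast h
        exact mul_le_mul_of_nonneg_left this (by positivity)
      linarith
    · have e : 4 * (M : ℤ) * (v + 1) ≤ 4 * M * u := by
        have : ((v : ℤ) + 1) ≤ u := by exact_mod_cast h
        exact mul_le_mul_of_nonneg_left this (by positivity)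
      linarith
  have hsub : (((Finset.Ioc (R / 2) R).biUnion F : Finset ℤ) : Set ℤ) ⊆ S n a := by
    intro s hs
    rw [Finset.mem_coe, Finset.mem_biUnion] at hs
    obtain ⟨t, ht, hs⟩ := hs
    exact (hloc t ht s hs).1
  have h1 := Set.ncard_le_ncard hsub (S_finite n a)
  rw [Set.ncard_coe_finset, Finset.card_biUnion hdisj] at h1
  have h2 : ∀ t ∈ Finset.Ioc (R / 2) R, σ ≤ ((F t).card : ℝ) := by
    intro t ht
    obtain ⟨_, _, h⟩ := huk t ht
    have h' : (M : ℝ) ^ 2 ≤ 2 * ((F t).card : ℝ) ^ 3 := by exact_mod_cast h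
    have h3 : σ ^ 3 ≤ ((F t).card : ℝ) ^ 3 := by linarith
    exact le_of_pow_le_pow_left₀ (by norm_num) (by positivity) h3
  calc ((R - R / 2 : ℕ) : ℝ) * σ = ∑ t ∈ Finset.Ioc (R / 2) R, σ := by
        rw [Finset.sum_const, Nat.card_Ioc, nsmul_eq_mul]
    _ ≤ ∑ t ∈ Finset.Ioc (R / 2) R, ((F t).card : ℝ) := Finset.sum_le_sum h2
    _ = ((∑ t ∈ Finset.Ioc (R / 2) R, (F t).card : ℕ) : ℝ) := by push_cast; rfl
    _ ≤ _ := by exact_mod_cast h1

end Pool.Agent.X319.UB
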