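import Pool.Agent.X319.UB.Low

/-!
# The lower bound: asymptotics
-/

set_option autoImplicit false

namespace Pool.Agent.X319.UB

open Finset Filter
open scoped Pointwise

theorem P_low {c : ℝ} (hc0 : 1 / 2 ≤ c) (hc1 : c < 3 / 4) : P c := by
  have hcpos : 0 < c := by linarith
  set ε : ℝ := 1 / c - 4 / 3 with hε
  have hε0 : 0 < ε := by
    have : 4 / 3 < 1 / c := by rw [lt_div_iff₀ hcpos]; linarith
    linarith
  have hε1 : ε ≤ 2 / 3 := by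
    have : 1 / c ≤ 2 := by rw [div_le_iff₀ hcpos]; linarith
    linarith
  have hcε : c * ε = 1 - 4 / 3 * c := by rw [hε]; field_simp
  have hlog2 := Real.log_pos (by norm_num : (1 : ℝ) < 2)
  set C1 : ℝ := 1 / (ε * Real.log 2) + 1 with hC1
  have hC1pos : 1 ≤ C1 := by
    have : 0 < 1 / (ε * Real.log 2) := by positivity
    rw [hC1]; linarith
  have htend : Tendsto (fun n : ℕ => (n : ℝ) ^ (c / 3)) atTop atTop :=
    (tendsto_rpow_atTop (by positivity)).comp tendsto_natCast_atTop_atTop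
  obtain ⟨n₀, hn₀⟩ := Filter.eventually_atTop.1
    ((htend.eventually_ge_atTop (128 * C1)).and (eventually_ge_atTop 1))
  refine ⟨1 / (128 * C1), by positivity, n₀, fun n hn a ha => ?_⟩
  obtain ⟨hn1, hn2⟩ := hn₀ n hn
  have hnR : (1 : ℝ) ≤ n := by exact_mod_cast hn2
  have hn0 : (0 : ℝ) < n := by linarith
  set x : ℝ := (n : ℝ) ^ c with hx
  have hx1 : 1 ≤ x := Real.one_le_rpow hnR hcpos.le
  have hx0 : 0 < x := by linarith
  obtain ⟨M, hxM, hM2x⟩ : ∃ M : ℕ, x ≤ M ∧ (M : ℝ) ≤ 2 * x := by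
    refine ⟨⌈x⌉₊, Nat.le_ceil x, ?_⟩
    have := (Nat.ceil_lt_add_one hx0.le).le
    linarith
  have hMR : (1 : ℝ) ≤ M := hx1.trans hxM
  have hM0 : (0 : ℝ) < M := by linarith
  have hM1 : 1 ≤ M := by exact_mod_cast hMR
  have ha' : ∀ i, 1 ≤ i → i ≤ n → a i ≤ M := by
    intro i h1 h2
    have := (ha i h1 h2).trans hxM
    exact_mod_cast this
  obtain ⟨L, hL, hML⟩ : ∃ L : ℕ, L = Nat.log 2 M + 1 ∧ M < 2 ^ L :=
    ⟨_, rfl, Nat.lt_pow_succ_log_self (by norm_num) M⟩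
  have hL1 : 1 ≤ L := by omega
  have hLR : (L : ℝ) ≤ C1 * (M : ℝ) ^ ε := by
    have h1 : ((Nat.log 2 M : ℕ) : ℝ) ≤ Real.logb 2 M := by
      have := Real.natLog_le_logb M 2
      exact_mod_cast this
    have h2 : Real.log M ≤ (M : ℝ) ^ ε / ε := Real.log_le_rpow_div hM0.le hε0
    have h3 : (1 : ℝ) ≤ (M : ℝ) ^ ε := Real.one_le_rpow hMR hε0.le
    have h4 : Real.logb 2 M ≤ 1 / (ε * Real.log 2) * (M : ℝ) ^ ε := by
      rw [Real.logb, div_le_iff₀ hlog2]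
      calc Real.log M ≤ (M : ℝ) ^ ε / ε := h2
        _ = _ := by field_simp
    have h5 : (L : ℝ) = ((Nat.log 2 M : ℕ) : ℝ) + 1 := by rw [hL]; push_cast; ring
    rw [h5, hC1]
    nlinarith
  have hMpow1 : (M : ℝ) ^ (1 + ε) ≤ 4 * (n : ℝ) ^ (1 - c / 3) := by
    calc (M : ℝ) ^ (1 + ε) ≤ (2 * x) ^ (1 + ε) := Real.rpow_le_rpow hM0.le hM2x (by linarith)
      _ = 2 ^ (1 + ε) * x ^ (1 + ε) := Real.mul_rpow (by norm_num) hx0.le
      _ ≤ 2 ^ (2 : ℝ) * x ^ (1 + ε) := by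
        refine mul_le_mul_of_nonneg_right ?_ (by positivity)
        exact Real.rpow_le_rpow_of_exponent_le (by norm_num) (by linarith)
      _ = 4 * (n : ℝ) ^ (1 - c / 3) := by
        rw [hx, ← Real.rpow_mul hn0.le]
        have e1 : c * (1 + ε) = 1 - c / 3 := by linear_combination hcε
        rw [e1]
        norm_num
  have hMpow2 : (M : ℝ) ^ (1 / 3 + ε) ≤ 2 * (n : ℝ) ^ (1 - c) := by
    calc (M : ℝ) ^ (1 / 3 + ε) ≤ (2 * x) ^ (1 / 3 + ε) :=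
          Real.rpow_le_rpow hM0.le hM2x (by linarith)
      _ = 2 ^ (1 / 3 + ε) * x ^ (1 / 3 + ε) := Real.mul_rpow (by norm_num) hx0.le
      _ ≤ 2 ^ (1 : ℝ) * x ^ (1 / 3 + ε) := by
        refine mul_le_mul_of_nonneg_right ?_ (by positivity)
        exact Real.rpow_le_rpow_of_exponent_le (by norm_num) (by linarith)
      _ = 2 * (n : ℝ) ^ (1 - c) := by
        rw [hx, ← Real.rpow_mul hn0.le, Real.rpow_one]
        have e1 : c * (1 / 3 + ε) = 1 - c := by linear_combination hcε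
        rw [e1]
  have hsplit : (n : ℝ) = (n : ℝ) ^ (1 - c / 3) * (n : ℝ) ^ (c / 3) := by
    rw [← Real.rpow_add hn0, sub_add_cancel, Real.rpow_one]
  have hMLpow : (M : ℝ) * L ≤ C1 * (M : ℝ) ^ (1 + ε) := by
    calc (M : ℝ) * L ≤ M * (C1 * (M : ℝ) ^ ε) := mul_le_mul_of_nonneg_left hLR hM0.le
      _ = _ := by rw [Real.rpow_add hM0, Real.rpow_one]; ring
  have hA : 32 * (M : ℝ) * L ≤ n := by
    calc 32 * (M : ℝ) * L = 32 * ((M : ℝ) * L) := by ring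
      _ ≤ 32 * (C1 * (4 * (n : ℝ) ^ (1 - c / 3))) := by
        refine mul_le_mul_of_nonneg_left (hMLpow.trans ?_) (by norm_num)
        exact mul_le_mul_of_nonneg_left hMpow1 (by linarith)
      _ = (n : ℝ) ^ (1 - c / 3) * (128 * C1) := by ring
      _ ≤ (n : ℝ) ^ (1 - c / 3) * (n : ℝ) ^ (c / 3) :=
        mul_le_mul_of_nonneg_left hn1 (by positivity)
      _ = n := hsplit.symm
  have hAn : 32 * M * L ≤ n := by exact_mod_cast hA
  obtain ⟨K, hK1, hK2⟩ : ∃ K : ℕ, 4 * M * K ≤ n ∧ n < 4 * M * (K + 1) :=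
    ⟨n / (4 * M), Nat.mul_div_le n (4 * M), Nat.lt_mul_div_succ n (by omega)⟩
  have hKpos : 1 ≤ K := by
    by_contra hcon
    have h0 : K = 0 := by omega
    rw [h0] at hK2
    have h32 : 32 * M * 1 ≤ 32 * M * L := Nat.mul_le_mul_left _ hL1
    omega
  obtain ⟨R, hR1, hR2⟩ : ∃ R : ℕ, 2 * L * R ≤ K - 1 ∧ K - 1 < 2 * L * (R + 1) :=
    ⟨(K - 1) / (2 * L), Nat.mul_div_le (K - 1) (2 * L), Nat.lt_mul_div_succ (K - 1) (by omega)⟩
  have hR3 : 2 * R * L < K := by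
    have : 2 * R * L = 2 * L * R := by ring
    omega
  have hσ : 2 * ((M : ℝ) ^ (2 / 3 : ℝ) / 2) ^ 3 ≤ (M : ℝ) ^ 2 := by
    have e1 : ((M : ℝ) ^ (2 / 3 : ℝ)) ^ 3 = (M : ℝ) ^ 2 := by
      rw [← Real.rpow_natCast, ← Real.rpow_mul hM0.le, ← Real.rpow_natCast (M : ℝ) 2]
      congr 1
      norm_num
    have e2 : 2 * ((M : ℝ) ^ (2 / 3 : ℝ) / 2) ^ 3 = (M : ℝ) ^ 2 / 4 := by
      rw [div_pow, e1]; ring
    rw [e2]
    have : 0 ≤ (M : ℝ) ^ 2 := by positivity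
    linarith
  have hcount := count a M hM1 ha' hML hK1 hR3 hσ
  obtain ⟨r, hr⟩ : ∃ r : ℕ, r = R - R / 2 := ⟨_, rfl⟩
  rw [← hr] at hcount
  have hRR : (n : ℝ) ≤ 32 * (M * L) * (r : ℝ) := by
    have h1 : R ≤ 2 * r := by omega
    have h1' : (R : ℝ) ≤ 2 * (r : ℝ) := by exact_mod_cast h1
    have h2 : K ≤ 2 * L * (R + 1) := by omega
    have h2' : (K : ℝ) ≤ 2 * L * (R + 1) := by exact_mod_cast h2
    have h3 : (n : ℝ) ≤ 4 * M * (K + 1) := by exact_mod_cast hK2.le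
    have h4 : (n : ℝ) ≤ 4 * M * (2 * L * (R + 1) + 1) := by
      refine h3.trans (mul_le_mul_of_nonneg_left ?_ (by positivity))
      linarith
    have hLR1 : (1 : ℝ) ≤ L := by exact_mod_cast hL1
    have h5 : (M : ℝ) ≤ M * L := by
      calc (M : ℝ) = M * 1 := (mul_one _).symm
        _ ≤ _ := mul_le_mul_of_nonneg_left hLR1 hM0.le
    have h6 : (n : ℝ) ≤ 8 * (M * L) * R + 12 * (M * L) := by
      have e : 4 * (M : ℝ) * (2 * L * (R + 1) + 1) = 8 * (M * L) * R + 8 * (M * L) + 4 * M := by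
        ring
      linarith
    have h7 : (n : ℝ) ≤ 16 * (M * L) * R := by
      have h8 : 32 * ((M : ℝ) * L) ≤ n := by linarith
      linarith
    have h9 : 0 ≤ (M : ℝ) * L := by positivity
    calc (n : ℝ) ≤ 16 * (M * L) * R := h7
      _ ≤ 16 * (M * L) * (2 * (r : ℝ)) := mul_le_mul_of_nonneg_left h1' (by positivity)
      _ = _ := by ring
  -- final estimate
  have hfin : (n : ℝ) ^ c * ((M : ℝ) * L) ≤ 2 * C1 * n * (M : ℝ) ^ (2 / 3 : ℝ) := by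
    have e1 : (M : ℝ) ^ (1 + ε) = (M : ℝ) ^ (1 / 3 + ε) * (M : ℝ) ^ (2 / 3 : ℝ) := by
      rw [← Real.rpow_add hM0]; congr 1; ring
    have e2 : (n : ℝ) ^ c * (n : ℝ) ^ (1 - c) = n := by
      rw [← Real.rpow_add hn0, add_sub_cancel, Real.rpow_one]
    calc (n : ℝ) ^ c * ((M : ℝ) * L) ≤ (n : ℝ) ^ c * (C1 * (M : ℝ) ^ (1 + ε)) :=
          mul_le_mul_of_nonneg_left hMLpow (by positivity)
      _ = C1 * (n : ℝ) ^ c * (M : ℝ) ^ (2 / 3 : ℝ) * (M : ℝ) ^ (1 / 3 + ε) := by rw [e1]; ring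
      _ ≤ C1 * (n : ℝ) ^ c * (M : ℝ) ^ (2 / 3 : ℝ) * (2 * (n : ℝ) ^ (1 - c)) :=
        mul_le_mul_of_nonneg_left hMpow2 (by positivity)
      _ = 2 * C1 * ((n : ℝ) ^ c * (n : ℝ) ^ (1 - c)) * (M : ℝ) ^ (2 / 3 : ℝ) := by ring
      _ = _ := by rw [e2]
  refine le_trans ?_ hcount
  rw [one_div, inv_mul_le_iff₀ (by positivity)]
  have hML0 : 0 < (M : ℝ) * L := by positivity
  have h10 : x * ((M : ℝ) * L) ≤ (128 * C1 * ((r : ℝ) * ((M : ℝ) ^ (2 / 3 : ℝ) / 2))) * ((M : ℝ) * L) := by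
    calc x * ((M : ℝ) * L) ≤ 2 * C1 * n * (M : ℝ) ^ (2 / 3 : ℝ) := hfin
      _ ≤ 2 * C1 * (32 * (M * L) * (r : ℝ)) * (M : ℝ) ^ (2 / 3 : ℝ) := by
        refine mul_le_mul_of_nonneg_right ?_ (by positivity)
        exact mul_le_mul_of_nonneg_left hRR (by linarith)
      _ = _ := by ring
  exact le_of_mul_le_mul_right h10 hML0

theorem P_mono {c b : ℝ} (hcb : c ≤ b) (hb : P b) : P c := by
  obtain ⟨δ, hδ, n₀, h⟩ := hb
  refine ⟨δ, hδ, max n₀ 1, fun n hn a ha => ?_⟩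
  have hn1 : (1 : ℝ) ≤ n := by exact_mod_cast (le_max_right _ _).trans hn
  have hle : (n : ℝ) ^ c ≤ (n : ℝ) ^ b := Real.rpow_le_rpow_of_exponent_le hn1 hcb
  exact (mul_le_mul_of_nonneg_left hle hδ.le).trans
    (h n ((le_max_left _ _).trans hn) a (fun i h1 h2 => (ha i h1 h2).trans hle))

end Pool.Agent.X319.UB
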